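import Pool.Agent.Helper304.LapKato

/-! Kato's inequality for truncations of distributional supersolutions, and closedness of
distributional supersolutions under `L¹` convergence. -/

set_option autoImplicit false

open MeasureTheory Filter Topology Set
open scoped ContDiff Convolution

noncomputable section

namespace Pool.Agent.Q175.KA

open Helper304Lap

variable {N : ℕ}

/-- The truncated test functions. -/
def th (k : ℝ) (t : ℝ) : ℝ := Real.smoothTransition (k + 1 - t)

lemma th_smooth (k : ℝ) : ContDiff ℝ ∞ (th k) :=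
  Real.smoothTransition.contDiff.comp (contDiff_const.sub contDiff_id)

lemma th_anti (k : ℝ) : Antitone (th k) := fun a b hab =>
  Real.smoothTransition.monotone (by linarith)

lemma th_nonneg (k t : ℝ) : 0 ≤ th k t := Real.smoothTransition.nonneg _

lemma th_le (k t : ℝ) : th k t ≤ 1 := Real.smoothTransition.le_one _

lemma th_abs (k t : ℝ) : |th k t| ≤ 1 := abs_le.mpr ⟨by linarith [th_nonneg k t], th_le k t⟩

lemma th_one {k t : ℝ} (h : t ≤ k) : th k t = 1 := Real.smoothTransition.one_of_one_le (by linarith)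

lemma th_zero {k t : ℝ} (h : k + 1 ≤ t) : th k t = 0 :=
  Real.smoothTransition.zero_of_nonpos (by linarith)

/-- Kato's inequality for a supersolution and a decreasing `θ ≥ 0`. -/
lemma kato_super {Ω : Set (E N)} (hΩ : IsOpen Ω) {u f : E N → ℝ} (hu : Integrable u)
    (hf : Integrable f)
    (hsup : ∀ ψ, Tst ψ → tsupport ψ ⊆ Ω → (∀ x, 0 ≤ ψ x) → ∫ x, u x * lap ψ x ≤ ∫ x, f x * ψ x)
    {θ : ℝ → ℝ} (hθ : ContDiff ℝ ∞ θ) (hanti : Antitone θ) (h0 : ∀ s, 0 ≤ θ s) {M : ℝ}
    (hM : ∀ s, |θ s| ≤ M) {φ : E N → ℝ} (hφ : Tst φ) (hs : tsupport φ ⊆ Ω) (hφ0 : ∀ x, 0 ≤ φ x) :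
    ∫ x, prim θ (u x) * lap φ x ≤ ∫ x, θ (u x) * f x * φ x := by
  obtain ⟨C, hC0, hC⟩ := hφ.bdd
  have hM0 : 0 ≤ M := (abs_nonneg _).trans (hM 0)
  obtain ⟨δ, hδ, hδΩ⟩ := hφ.2.isCompact.exists_cthickening_subset_open hΩ hs
  have hev : ∀ᶠ n : ℕ in atTop, 1 / ((n : ℝ) + 1) < δ :=
    tendsto_one_div_add_atTop_nhds_zero_nat.eventually (Iio_mem_nhds hδ)
  have hlap : ∀ᶠ n : ℕ in atTop, ∀ x ∈ tsupport φ, lap (ml n u) x ≤ ml n f x := by
    filter_upwards [hev] with n hn x hx
    have hsub : tsupport (fun t => mol n (x - t)) ⊆ Ω := by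
      refine Subset.trans (closure_minimal (t := Metric.closedBall x δ) ?_ Metric.isClosed_closedBall) ?_
      · intro t ht
        rw [Function.mem_support] at ht
        by_contra hcon
        apply ht
        rw [Metric.mem_closedBall, not_le, dist_comm] at hcon
        have h1 : x - t ∉ tsupport (mol (N := N) n) := by
          unfold mol
          rw [ContDiffBump.tsupport_normed_eq]
          rw [mem_closedBall_zero_iff, not_le, ← dist_eq_norm]
          change 1 / ((n : ℝ) + 1) < _
          linarith
        exact image_eq_zero_of_notMem_tsupport h1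
      · refine Subset.trans ?_ hδΩ
        intro t ht
        exact Metric.mem_cthickening_of_dist_le t x δ _ hx ht
    have h1 := hsup (fun t => mol n (x - t)) (tst_reflect (mol_tst n) x) hsub
      (fun t => mol_nonneg n _)
    simp only [lap_reflect (mol_tst n).1] at h1
    have h2 : lap (ml n u) x = ∫ t, lap (mol n) (x - t) * u t := by
      unfold lap
      simp only [ml_pd2 n hu.locallyIntegrable, convolution_lsmul_swap, smul_eq_mul, Finset.sum_mul]
      rw [integral_finsetSum]
      intro i _
      have := ((((mol_tst (N := N) n).pd i).pd i).2.convolutionExists_left (ContinuousLinearMap.lsmul ℝ ℝ)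
        (((mol_tst (N := N) n).pd i).pd i).cont hu.locallyIntegrable x).integrable_swap
      simpa using this
    rw [h2, ml_eq]
    have e1 : ∫ t, lap (mol n) (x - t) * u t = ∫ t, u t * lap (mol n) (x - t) := by
      congr 1; ext t; ring
    have e2 : ∫ t, mol n (x - t) * f t = ∫ t, f t * mol n (x - t) := by
      congr 1; ext t; ring
    rw [e1, e2]
    exact h1
  have h1 : ∀ᶠ n in atTop, ∫ x, prim θ (ml n u x) * lap φ x ≤
      ∫ x, (θ (ml n u x) * φ x) * ml n f x := by
    filter_upwards [hlap] with n hn
    have hs := ml_contDiff n hu.locallyIntegrable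
    rw [smooth_second hφ hs hθ]
    have hfc := ml_contDiff n hf.locallyIntegrable
    apply integral_mono
    · apply Tst.integrable
      apply hφ.smooth_mul
      apply ContDiff.add
      · exact (hθ.comp hs).mul (contDiff_lap hs)
      · apply ContDiff.mul
        · have hd : ContDiff ℝ ∞ (deriv θ) := by
            rw [contDiff_infty_iff_deriv] at hθ; exact hθ.2
          exact hd.comp hs
        · exact ContDiff.sum fun i _ => (contDiff_pd hs i).mul (contDiff_pd hs i)
    · have : Tst (fun x => (θ (ml n u x) * ml n f x) * φ x) :=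
        hφ.smooth_mul ((hθ.comp hs).mul hfc)
      refine this.integrable.congr (Eventually.of_forall fun x => ?_)
      simp only; ring
    · intro x
      simp only
      by_cases hx : x ∈ tsupport φ
      · have h3 := hn x hx
        have h2 : deriv θ (ml n u x) * ∑ i, pd i (ml n u) x * pd i (ml n u) x ≤ 0 :=
          mul_nonpos_of_nonpos_of_nonneg hanti.deriv_nonpos
            (Finset.sum_nonneg fun i _ => mul_self_nonneg _)
        have h4 := mul_le_mul_of_nonneg_left h3 (h0 (ml n u x))
        nlinarith [hφ0 x]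
      · rw [image_eq_zero_of_notMem_tsupport hx]; simp
  have h3 := prim_sub_tendsto hu hφ.lap hθ.continuous.measurable hM
  have h4 : Tendsto (fun n => ∫ x, (θ (ml n u x) * φ x) * ml n f x) atTop
      (𝓝 (∫ x, (θ (u x) * φ x) * f x)) := by
    apply tendsto_mul_L1 (M := M * C)
    · intro n
      exact ((hθ.continuous.comp (ml_contDiff n hu.locallyIntegrable).continuous).mul
        hφ.cont).aestronglyMeasurable
    · intro n
      refine Eventually.of_forall fun x => ?_
      rw [abs_mul]
      exact mul_le_mul (hM _) (hC _) (abs_nonneg _) hM0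
    · filter_upwards [ml_ae u hu.locallyIntegrable] with x hx
      exact ((hθ.continuous.tendsto _).comp hx).mul_const _
    · exact fun n => ml_integrable n hf
    · exact hf
    · exact ml_L1 hf
  have h5 := le_of_tendsto_of_tendsto h3 h4 h1
  refine le_trans h5 (le_of_eq ?_)
  refine integral_congr_ae (Eventually.of_forall fun x => ?_)
  simp only; ring

/-- Fatou's lemma for real functions. -/
lemma fatou {α : Type*} [MeasurableSpace α] {μ : Measure α} {F : ℕ → α → ℝ} {f : α → ℝ}
    {c : ℕ → ℝ} {C : ℝ} (hF : ∀ i, Integrable (F i) μ) (h0 : ∀ i x, 0 ≤ F i x)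
    (hae : ∀ᵐ x ∂μ, Tendsto (fun i => F i x) atTop (𝓝 (f x))) (hle : ∀ i, ∫ x, F i x ∂μ ≤ c i)
    (hc : Tendsto c atTop (𝓝 C)) : Integrable f μ ∧ ∫ x, f x ∂μ ≤ C := by
  have hmeas : AEStronglyMeasurable f μ :=
    aestronglyMeasurable_of_tendsto_ae atTop (fun i => (hF i).aestronglyMeasurable) hae
  have hf0 : 0 ≤ᵐ[μ] f := by
    filter_upwards [hae] with x hx
    exact ge_of_tendsto' hx fun i => h0 i x
  have hC0 : 0 ≤ C := ge_of_tendsto' hc fun i => (integral_nonneg (h0 i)).trans (hle i)
  have h1 : ∫⁻ x, ENNReal.ofReal (f x) ∂μ ≤ ENNReal.ofReal C := by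
    calc ∫⁻ x, ENNReal.ofReal (f x) ∂μ = ∫⁻ x, liminf (fun i => ENNReal.ofReal (F i x)) atTop ∂μ := by
          apply lintegral_congr_ae
          filter_upwards [hae] with x hx
          exact ((ENNReal.continuous_ofReal.tendsto _).comp hx).liminf_eq.symm
      _ ≤ liminf (fun i => ∫⁻ x, ENNReal.ofReal (F i x) ∂μ) atTop :=
          lintegral_liminf_le' fun i => (hF i).aemeasurable.ennreal_ofReal
      _ ≤ liminf (fun i => ENNReal.ofReal (c i)) atTop := by
          refine liminf_le_liminf (Eventually.of_forall fun i => ?_) (by isBoundedDefault) (by isBoundedDefault)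
          rw [← ofReal_integral_eq_lintegral_ofReal (hF i) (Eventually.of_forall (h0 i))]
          exact ENNReal.ofReal_le_ofReal (hle i)
      _ = ENNReal.ofReal C := ((ENNReal.continuous_ofReal.tendsto _).comp hc).liminf_eq
  have hint : Integrable f μ := by
    refine ⟨hmeas, ?_⟩
    rw [hasFiniteIntegral_iff_ofReal hf0]
    exact h1.trans_lt ENNReal.ofReal_lt_top
  refine ⟨hint, ?_⟩
  rw [← ofReal_integral_eq_lintegral_ofReal hint hf0] at h1
  exact (ENNReal.ofReal_le_ofReal_iff hC0).mp h1

lemma prim_eq {k t : ℝ} (hk : 0 ≤ k) (h : t ≤ k) : prim (th k) t = t := by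
  unfold prim
  rw [intervalIntegral.integral_congr (g := fun _ => (1:ℝ))]
  · simp
  · intro s hs
    apply th_one
    rw [mem_uIcc] at hs
    rcases hs with ⟨a, b⟩ | ⟨a, b⟩ <;> linarith

lemma prim_abs (k t : ℝ) : |prim (th k) t| ≤ |t| := by
  have := prim_lip (th_smooth k).continuous.measurable (th_abs k) t 0
  simpa [prim] using this

section main
variable {Ω : Set (E N)} {g : ℝ → ℝ}

lemma ind_mul (v w : E N → ℝ) (hΩ : MeasurableSet Ω) :
    ∫ x, Ω.indicator v x * w x = ∫ x in Ω, v x * w x := by
  rw [← integral_indicator hΩ]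
  refine integral_congr_ae (Eventually.of_forall fun x => ?_)
  by_cases hx : x ∈ Ω
  · simp [indicator_of_mem hx]
  · simp [indicator_of_notMem hx]

/-- Kato's inequality on `Ω`. -/
lemma kato_on (hΩ : IsOpen Ω) {v : E N → ℝ} (hv : IntegrableOn v Ω)
    (hgv : IntegrableOn (fun x => g (v x)) Ω)
    (hsup : ∀ ψ, Tst ψ → tsupport ψ ⊆ Ω → (∀ x, 0 ≤ ψ x) →
      ∫ x in Ω, v x * lap ψ x ≤ ∫ x in Ω, g (v x) * ψ x) (k : ℝ)
    {φ : E N → ℝ} (hφ : Tst φ) (hs : tsupport φ ⊆ Ω) (hφ0 : ∀ x, 0 ≤ φ x) :
    ∫ x in Ω, prim (th k) (v x) * lap φ x ≤ ∫ x in Ω, th k (v x) * g (v x) * φ x := by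
  have hm := hΩ.measurableSet
  have hzl : ∀ {ψ : E N → ℝ}, tsupport ψ ⊆ Ω → ∀ x ∉ Ω, lap ψ x = 0 := fun h x hx =>
    image_eq_zero_of_notMem_tsupport fun h' => hx (h (tsupport_lap h'))
  have h := kato_super hΩ (u := Ω.indicator v) (f := Ω.indicator fun x => g (v x))
    ((integrable_indicator_iff hm).mpr hv) ((integrable_indicator_iff hm).mpr hgv)
    (fun ψ hψ hψs hψ0 => by
      rw [ind_mul v _ hm, ind_mul (fun x => g (v x)) _ hm]
      exact hsup ψ hψ hψs hψ0)
    (th_smooth k) (th_anti k) (th_nonneg k) (th_abs k) hφ hs hφ0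
  have e1 : ∫ x, prim (th k) (Ω.indicator v x) * lap φ x = ∫ x in Ω, prim (th k) (v x) * lap φ x := by
    rw [← integral_indicator hm]
    refine integral_congr_ae (Eventually.of_forall fun x => ?_)
    by_cases hx : x ∈ Ω
    · simp [indicator_of_mem hx]
    · simp [indicator_of_notMem hx, hzl hs x hx]
  have e2 : ∫ x, th k (Ω.indicator v x) * Ω.indicator (fun x => g (v x)) x * φ x =
      ∫ x in Ω, th k (v x) * g (v x) * φ x := by
    rw [← integral_indicator hm]
    refine integral_congr_ae (Eventually.of_forall fun x => ?_)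
    by_cases hx : x ∈ Ω
    · simp [indicator_of_mem hx]
    · simp [indicator_of_notMem hx]
  rwa [e1, e2] at h

/-- Closedness of supersolutions. -/
theorem closed (hΩ : IsOpen Ω) (hg : Continuous g) (hsign : ∀ t, 0 ≤ g t * t)
    {u : ℕ → E N → ℝ} {v : E N → ℝ} (hu : ∀ n, IntegrableOn (u n) Ω)
    (hgu : ∀ n, IntegrableOn (fun x => g (u n x)) Ω) {C : ℝ}
    (hC : ∀ n, ∫ x in Ω, |g (u n x)| ≤ C)
    (hsup : ∀ n, ∀ ψ, Tst ψ → tsupport ψ ⊆ Ω → (∀ x, 0 ≤ ψ x) →
      ∫ x in Ω, u n x * lap ψ x ≤ ∫ x in Ω, g (u n x) * ψ x)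
    (hv : IntegrableOn v Ω) (hlim : Tendsto (fun n => ∫ x in Ω, |u n x - v x|) atTop (𝓝 0)) :
    IntegrableOn (fun x => g (v x)) Ω ∧
      ∀ ψ, Tst ψ → tsupport ψ ⊆ Ω → (∀ x, 0 ≤ ψ x) →
        ∫ x in Ω, v x * lap ψ x ≤ ∫ x in Ω, g (v x) * ψ x := by
  -- a subsequence converging almost everywhere
  obtain ⟨ns, hns, hae⟩ : ∃ ns : ℕ → ℕ, StrictMono ns ∧
      ∀ᵐ x ∂(volume.restrict Ω), Tendsto (fun i => u (ns i) x) atTop (𝓝 (v x)) := by
    have h1 : TendstoInMeasure (volume.restrict Ω) u atTop v := by
      apply tendstoInMeasure_of_tendsto_eLpNorm (p := 1) one_ne_zero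
        (fun n => (hu n).aestronglyMeasurable) hv.aestronglyMeasurable
      have h2 : ∀ n, eLpNorm (u n - v) 1 (volume.restrict Ω) = ENNReal.ofReal (∫ x in Ω, |u n x - v x|) := by
        intro n
        rw [eLpNorm_one_eq_lintegral_enorm]
        have := ofReal_integral_norm_eq_lintegral_enorm ((hu n).sub hv)
        rw [← this]
        rfl
      simp only [h2]
      have h3 := (ENNReal.continuous_ofReal.tendsto 0).comp hlim
      rw [ENNReal.ofReal_zero] at h3
      exact h3
    exact h1.exists_seq_tendsto_ae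
  have hgae : ∀ᵐ x ∂(volume.restrict Ω), Tendsto (fun i => g (u (ns i) x)) atTop (𝓝 (g (v x))) := by
    filter_upwards [hae] with x hx
    exact (hg.tendsto _).comp hx
  have hgv : IntegrableOn (fun x => g (v x)) Ω := by
    have h1 := fatou (μ := volume.restrict Ω) (F := fun i x => |g (u (ns i) x)|)
      (f := fun x => |g (v x)|) (c := fun _ => C) (C := C) (fun i => (hgu (ns i)).abs)
      (fun i x => abs_nonneg _)
      (by filter_upwards [hgae] with x hx; exact hx.abs) (fun i => hC (ns i)) tendsto_const_nhds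
    refine (integrable_norm_iff ?_).mp h1.1
    exact aestronglyMeasurable_of_tendsto_ae atTop (fun i => (hgu (ns i)).aestronglyMeasurable) hgae
  refine ⟨hgv, fun φ hφ hs hφ0 => ?_⟩
  obtain ⟨D, hD0, hD⟩ := hφ.bdd
  obtain ⟨D', hD'0, hD'⟩ := hφ.lap.bdd
  have hlim' : Tendsto (fun i => ∫ x in Ω, |u (ns i) x - v x|) atTop (𝓝 0) :=
    hlim.comp hns.tendsto_atTop
  -- the truncated inequality for the limit
  have hk : ∀ k : ℕ, ∫ x in Ω, prim (th k) (v x) * lap φ x ≤ ∫ x in Ω, th k (v x) * g (v x) * φ x := by
    intro k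
    have hthc : Continuous (th (k : ℝ)) := (th_smooth k).continuous
    obtain ⟨B, hB⟩ := (isCompact_Icc (a := (0:ℝ)) (b := (k : ℝ) + 1)).exists_bound_of_continuousOn hg.continuousOn
    have hB0 : 0 ≤ B := (norm_nonneg _).trans (hB 0 ⟨le_rfl, by positivity⟩)
    set P : ℝ → ℝ := fun t => th k t * max (g t) 0 with hP
    set Q : ℝ → ℝ := fun t => th k t * max (-g t) 0 with hQ
    have hPc : Continuous P := hthc.mul (hg.max continuous_const)
    have hQc : Continuous Q := hthc.mul (hg.neg.max continuous_const)
    have hPQ : ∀ t, th k t * g t = P t - Q t := by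
      intro t
      simp only [hP, hQ]
      rcases le_total 0 (g t) with h | h
      · rw [max_eq_left h, max_eq_right (by linarith)]; ring
      · rw [max_eq_right h, max_eq_left (by linarith)]; ring
    have hPb : ∀ t, |P t| ≤ B := by
      intro t
      have h0 : 0 ≤ P t := mul_nonneg (th_nonneg _ _) (le_max_right _ _)
      rw [abs_of_nonneg h0]
      rcases lt_or_ge t 0 with h | h
      · have h1 : g t ≤ 0 := by
          have := hsign t
          by_contra hcon
          push Not at hcon
          nlinarith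
        simp only [hP]
        rw [max_eq_right h1, mul_zero]; exact hB0
      · rcases le_or_gt t (k + 1) with h2 | h2
        · have h3 := hB t ⟨h, h2⟩
          rw [Real.norm_eq_abs] at h3
          have h4 : max (g t) 0 ≤ B := max_le ((le_abs_self _).trans h3) hB0
          calc P t ≤ 1 * max (g t) 0 := mul_le_mul_of_nonneg_right (th_le _ _) (le_max_right _ _)
            _ ≤ B := by rw [one_mul]; exact h4
        · simp only [hP]
          rw [th_zero h2.le, zero_mul]; exact hB0
    have hQ0 : ∀ t, 0 ≤ Q t := fun t => mul_nonneg (th_nonneg _ _) (le_max_right _ _)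
    have hQg : ∀ t, |Q t| ≤ |g t| := by
      intro t
      rw [abs_of_nonneg (hQ0 t)]
      calc Q t ≤ 1 * max (-g t) 0 := mul_le_mul_of_nonneg_right (th_le _ _) (le_max_right _ _)
        _ ≤ |g t| := by rw [one_mul]; exact max_le (neg_le_abs _) (abs_nonneg _)
    have hφi : IntegrableOn φ Ω := hφ.integrable.integrableOn
    -- integrability
    have hPi : ∀ w : E N → ℝ, AEStronglyMeasurable w (volume.restrict Ω) →
        IntegrableOn (fun x => P (w x) * φ x) Ω := by
      intro w hw
      exact hφi.bdd_mul (c := B) (hPc.comp_aestronglyMeasurable hw) (Eventually.of_forall fun x => hPb _)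
    have hQi : ∀ w : E N → ℝ, AEStronglyMeasurable w (volume.restrict Ω) →
        IntegrableOn (fun x => g (w x)) Ω → IntegrableOn (fun x => Q (w x) * φ x) Ω := by
      intro w hw hgw
      have h1 : IntegrableOn (fun x => Q (w x)) Ω := by
        refine Integrable.mono hgw (hQc.comp_aestronglyMeasurable hw) (Eventually.of_forall fun x => ?_)
        exact hQg _
      have h2 : Integrable (fun x => φ x * Q (w x)) (volume.restrict Ω) :=
        Integrable.bdd_mul (c := D) h1 hφ.cont.aestronglyMeasurable (Eventually.of_forall fun x => hD x)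
      refine h2.congr (Eventually.of_forall fun x => ?_)
      simp only; ring
    -- limits
    have ha : Tendsto (fun i => ∫ x in Ω, prim (th k) (u (ns i) x) * lap φ x) atTop
        (𝓝 (∫ x in Ω, prim (th k) (v x) * lap φ x)) := by
      have := tendsto_mul_L1 (μ := volume.restrict Ω) (a := fun _ => lap φ) (a' := lap φ)
        (w := fun i x => prim (th k) (u (ns i) x)) (w' := fun x => prim (th k) (v x)) (M := D')
        (fun n => hφ.lap.cont.aestronglyMeasurable)
        (fun n => Eventually.of_forall hD') (Eventually.of_forall fun x => tendsto_const_nhds)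
        (fun i => prim_comp_integrable (hu (ns i)) hthc.measurable (th_abs k))
        (prim_comp_integrable hv hthc.measurable (th_abs k)) ?_
      · simpa only [mul_comm] using this
      · apply squeeze_zero (g := fun i => ∫ x in Ω, |u (ns i) x - v x|)
          (fun n => integral_nonneg fun x => abs_nonneg _)
        · intro n
          apply integral_mono_of_nonneg (Eventually.of_forall fun x => abs_nonneg _)
            ((hu (ns n)).sub hv).abs
          refine Eventually.of_forall fun x => ?_
          have := prim_lip hthc.measurable (th_abs k) (u (ns n) x) (v x)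
          simpa using this
        · exact hlim'
    have hp : Tendsto (fun i => ∫ x in Ω, P (u (ns i) x) * φ x) atTop
        (𝓝 (∫ x in Ω, P (v x) * φ x)) := by
      apply tendsto_integral_of_dominated_convergence (fun x => B * |φ x|)
      · intro i
        exact (hPi _ (hu (ns i)).aestronglyMeasurable).aestronglyMeasurable
      · exact hφi.abs.const_mul B
      · intro i
        refine Eventually.of_forall fun x => ?_
        rw [Real.norm_eq_abs, abs_mul]
        exact mul_le_mul_of_nonneg_right (hPb _) (abs_nonneg _)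
      · filter_upwards [hae] with x hx
        exact ((hPc.tendsto _).comp hx).mul_const _
    have hle : ∀ i, ∫ x in Ω, Q (u (ns i) x) * φ x ≤
        (∫ x in Ω, P (u (ns i) x) * φ x) - ∫ x in Ω, prim (th k) (u (ns i) x) * lap φ x := by
      intro i
      have h1 := kato_on hΩ (hu (ns i)) (hgu (ns i)) (hsup (ns i)) k hφ hs hφ0
      have h2 : ∫ x in Ω, th k (u (ns i) x) * g (u (ns i) x) * φ x =
          (∫ x in Ω, P (u (ns i) x) * φ x) - ∫ x in Ω, Q (u (ns i) x) * φ x := by
        rw [← integral_sub (hPi _ (hu (ns i)).aestronglyMeasurable)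
          (hQi _ (hu (ns i)).aestronglyMeasurable (hgu (ns i)))]
        refine integral_congr_ae (Eventually.of_forall fun x => ?_)
        simp only
        rw [hPQ]; ring
      rw [h2] at h1
      linarith
    have hfin := fatou (μ := volume.restrict Ω) (F := fun i x => Q (u (ns i) x) * φ x)
      (f := fun x => Q (v x) * φ x)
      (fun i => hQi _ (hu (ns i)).aestronglyMeasurable (hgu (ns i)))
      (fun i x => mul_nonneg (hQ0 _) (hφ0 x))
      (by filter_upwards [hae] with x hx; exact ((hQc.tendsto _).comp hx).mul_const _)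
      hle (hp.sub ha)
    have h2 : ∫ x in Ω, th k (v x) * g (v x) * φ x =
        (∫ x in Ω, P (v x) * φ x) - ∫ x in Ω, Q (v x) * φ x := by
      rw [← integral_sub (hPi _ hv.aestronglyMeasurable) hfin.1]
      refine integral_congr_ae (Eventually.of_forall fun x => ?_)
      simp only
      rw [hPQ]; ring
    rw [h2]
    linarith [hfin.2]
  -- remove the truncation
  have hthle : ∀ᵐ x ∂(volume.restrict Ω), ∀ᶠ k : ℕ in atTop, v x ≤ k :=
    Eventually.of_forall fun x => (tendsto_natCast_atTop_atTop.eventually_ge_atTop (v x))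
  have hA : Tendsto (fun k : ℕ => ∫ x in Ω, prim (th k) (v x) * lap φ x) atTop
      (𝓝 (∫ x in Ω, v x * lap φ x)) := by
    apply tendsto_integral_of_dominated_convergence (fun x => D' * |v x|)
    · intro k
      exact ((prim_comp_integrable hv (th_smooth k).continuous.measurable (th_abs k)).aestronglyMeasurable).mul
        hφ.lap.cont.aestronglyMeasurable
    · exact hv.abs.const_mul D'
    · intro k
      refine Eventually.of_forall fun x => ?_
      rw [Real.norm_eq_abs, abs_mul, mul_comm]
      exact mul_le_mul (hD' x) (prim_abs _ _) (abs_nonneg _) hD'0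
    · filter_upwards [hthle] with x hx
      apply tendsto_const_nhds.congr'
      filter_upwards [hx] with k hk
      rw [prim_eq (by positivity) hk]
  have hB : Tendsto (fun k : ℕ => ∫ x in Ω, th k (v x) * g (v x) * φ x) atTop
      (𝓝 (∫ x in Ω, g (v x) * φ x)) := by
    apply tendsto_integral_of_dominated_convergence (fun x => D * |g (v x)|)
    · intro k
      exact (((th_smooth k).continuous.comp_aestronglyMeasurable hv.aestronglyMeasurable).mul
        hgv.aestronglyMeasurable).mul hφ.cont.aestronglyMeasurable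
    · exact hgv.abs.const_mul D
    · intro k
      refine Eventually.of_forall fun x => ?_
      rw [Real.norm_eq_abs, abs_mul, abs_mul, mul_comm]
      refine mul_le_mul (hD x) ?_ (by positivity) hD0
      calc |th k (v x)| * |g (v x)| ≤ 1 * |g (v x)| := mul_le_mul_of_nonneg_right (th_abs _ _) (abs_nonneg _)
        _ = |g (v x)| := one_mul _
    · filter_upwards [hthle] with x hx
      apply tendsto_const_nhds.congr'
      filter_upwards [hx] with k hk
      rw [th_one hk, one_mul]
  exact le_of_tendsto_of_tendsto' hA hB hk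

end main

end Pool.Agent.Q175.KA
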